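import Pool.Agent.Helper93.PL.St

/-! Project PL (MP_d466de), module CHO (helper80). -/

set_option autoImplicit false

namespace Pool.Agent.Helper80.PL

/-- `C(a,k+1) = C(a,k) (a-k)/(k+1)` -/
lemma choose_step (a k : ℕ) :
    ((a.choose (k + 1) : ℕ) : ℝ) = (a.choose k : ℝ) * ((a : ℝ) - k) / ((k : ℝ) + 1) := by
  have hk : ((k : ℝ) + 1) ≠ 0 := by positivity
  rw [eq_div_iff hk]
  have h := Nat.choose_succ_right_eq a k
  by_cases hak : k ≤ a
  · have h2 : (((a.choose (k + 1) * (k + 1) : ℕ)) : ℝ) = ((a.choose k * (a - k) : ℕ) : ℝ) := by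
      rw [h]
    push_cast [Nat.cast_sub hak] at h2
    exact h2
  · have h1 : a.choose k = 0 := Nat.choose_eq_zero_of_lt (by omega)
    have h2 : a.choose (k + 1) = 0 := Nat.choose_eq_zero_of_lt (by omega)
    simp [h1, h2]

theorem hCho : Pool.Agent.Helper93.PL.StCho := by
  intro k
  induction k with
  | zero =>
    intro Y c ε _ _ hε
    refine ⟨1, one_pos, ?_⟩
    intro S y a _ _ _ _
    simp [hε.le]
  | succ k ih =>
    intro Y c ε hY hc hε
    have hYk : (0 : ℝ) ≤ Y ^ k := pow_nonneg hY k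
    obtain ⟨S₁, hS₁, h₁⟩ := ih Y c (ε / (2 * (Y + 1))) hY hc (by positivity)
    set q : ℝ := min 1 (ε / (2 * (Y ^ k + 1))) with hq
    have hq0 : 0 < q := lt_min one_pos (by positivity)
    refine ⟨max S₁ ((c + k) / q), lt_max_of_lt_left hS₁, ?_⟩
    intro S y a hS hy0 hyY ha
    have hSS : S₁ ≤ S := le_trans (le_max_left _ _) hS
    have hS0 : 0 < S := lt_of_lt_of_le hS₁ hSS
    have hSq : (c + k) / q ≤ S := le_trans (le_max_right _ _) hS
    have hck : (c + k) / S ≤ q := by
      rw [div_le_iff₀ hS0]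
      rw [div_le_iff₀ hq0] at hSq
      linarith [mul_comm S q]
    have hu := h₁ S y a hSS hy0 hyY ha
    set u : ℝ := (a.choose k : ℝ) / S ^ k with hudef
    set v : ℝ := y ^ k / k.factorial with hvdef
    set w : ℝ := ((a : ℝ) - k) / S with hwdef
    have hwy : |w - y| ≤ q := by
      have e : w - y = ((a : ℝ) - y * S - k) / S := by
        rw [hwdef]; field_simp; ring
      rw [e, abs_div, abs_of_pos hS0]
      refine le_trans ?_ hck
      apply div_le_div_of_nonneg_right _ hS0.le
      refine le_trans (abs_sub _ _) ?_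
      have : |(k : ℝ)| = k := abs_of_nonneg (by positivity)
      rw [this]
      linarith
    have hw1 : |w| ≤ Y + 1 := by
      have h1 : |w| ≤ |w - y| + |y| := by
        calc |w| = |(w - y) + y| := by ring_nf
          _ ≤ _ := abs_add_le _ _
      have h2 : |y| = y := abs_of_nonneg hy0
      have h3 : q ≤ 1 := min_le_left _ _
      linarith
    have hv0 : 0 ≤ v := by positivity
    have hvY : v ≤ Y ^ k := by
      have h1 : y ^ k ≤ Y ^ k := pow_le_pow_left₀ hy0 hyY k
      have h2 : (1 : ℝ) ≤ k.factorial := by exact_mod_cast Nat.one_le_iff_ne_zero.mpr (Nat.factorial_ne_zero k)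
      exact le_trans (div_le_self (pow_nonneg hy0 k) h2) h1
    have hk1 : (1 : ℝ) ≤ (k : ℝ) + 1 := by linarith [(Nat.cast_nonneg k : (0 : ℝ) ≤ k)]
    have hkp : (0 : ℝ) < (k : ℝ) + 1 := by linarith
    have e1 : ((a.choose (k + 1) : ℕ) : ℝ) / S ^ (k + 1) = u * w / ((k : ℝ) + 1) := by
      rw [choose_step, hudef, hwdef, pow_succ]
      field_simp
    have e2 : y ^ (k + 1) / ((k + 1).factorial : ℕ) = v * y / ((k : ℝ) + 1) := by
      have hf : ((k.factorial : ℕ) : ℝ) ≠ 0 := by exact_mod_cast Nat.factorial_ne_zero k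
      rw [hvdef, Nat.factorial_succ, pow_succ]
      push_cast
      field_simp
    rw [e1, e2]
    have e3 : u * w / ((k : ℝ) + 1) - v * y / ((k : ℝ) + 1) = (u * w - v * y) / ((k : ℝ) + 1) := by ring
    rw [e3, abs_div, abs_of_pos hkp]
    refine le_trans (div_le_self (abs_nonneg _) hk1) ?_
    have e4 : u * w - v * y = (u - v) * w + v * (w - y) := by ring
    rw [e4]
    refine le_trans (abs_add_le _ _) ?_
    rw [abs_mul, abs_mul, abs_of_nonneg hv0]
    have i1 : |u - v| * |w| ≤ ε / (2 * (Y + 1)) * (Y + 1) :=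
      mul_le_mul hu hw1 (abs_nonneg _) (by positivity)
    have i2 : v * |w - y| ≤ (Y ^ k + 1) * (ε / (2 * (Y ^ k + 1))) := by
      apply mul_le_mul (by linarith) (le_trans hwy (min_le_right _ _)) (abs_nonneg _) (by positivity)
    have i3 : ε / (2 * (Y + 1)) * (Y + 1) = ε / 2 := by
      have : Y + 1 ≠ 0 := by positivity
      field_simp
    have i4 : (Y ^ k + 1) * (ε / (2 * (Y ^ k + 1))) = ε / 2 := by
      have : Y ^ k + 1 ≠ 0 := by positivity
      field_simp
    rw [i3] at i1
    rw [i4] at i2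
    linarith

end Pool.Agent.Helper80.PL
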